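import Mathlib
import Pool.Agent.H813Z.TernF

set_option autoImplicit false

namespace Pool.Agent.Results.MP_b08cb4_nt.APowerSaving

/-- A power saving over Narkiewicz's bound `N ^ (log_3 2)`: uniformly in the positive integer `l`
and in the digit `b`, at most `C * N ^ (log_3 2 - 1/10000)` exponents `1 ≤ n ≤ N` are such that
the ternary expansion of `l * 2 ^ n` omits the digit `b`. -/
theorem result : ∃ C : ℝ, ∀ b l N : ℕ, b < 3 → 0 < l → 0 < N →
    (((Finset.Icc 1 N).filter fun n => b ∉ Nat.digits 3 (l * 2 ^ n)).card : ℝ) ≤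
      C * (N : ℝ) ^ (Real.logb 3 2 - 1 / 10000) :=
  Pool.Agent.H813Z.Tern.power_saving

end Pool.Agent.Results.MP_b08cb4_nt.APowerSaving
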